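import Pool.Agent.H76.ADV.Tal
import Pool.Agent.H68.ADV.EG

/-!
# Advice, errors and the difference hierarchy over NE: a zero-one law

Question of MP_64fb07_lc: is NE = coNE (linear exponents; the class `NE` is called NEXPTIME there;
equivalently, is the complement of every first-order spectrum a spectrum)? With `2 ^ n + 1` advice
values for the inputs of length `n` (the number of the words of length `n` in the set)
nondeterministic machines of time `2 ^ O(n)` accept the complements of all sets in `NE`. We show what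
less advice, errors, and a collapse of the difference hierarchy over `NE` mean for each other:

1. `K` advice values (and up to `2 ^ (β n)` errors, `β < 1`) are enough if and only if the level `K`
   of the difference hierarchy is closed under complement, and then all levels `2 ^ (c n)` collapse to
   the level `K`. For `K = 1` this is the question NE = coNE.
2. The zero-one law: `γ n` bits of advice (or levels `2 ^ (γ n)`, or errors) for one `γ < 1` are enough
   if and only if `δ n` bits (levels `2 ^ (δ n)`, no errors) are enough for every `δ > 0`.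
3. Near the threshold: `(1 - ε) 2 ^ n` values for one `ε > 0` give `2 ^ (n - k)` values for every `k`;
   `2 ^ n - 1` values give `2 ^ n - C` values for every `C`; `h` errors are as good as a factor
   `2 h + 1` in the number of the advice values.
-/

set_option autoImplicit false

namespace Pool.Agent.Results.MP_64fb07_lc.AdviceLaw

open Pool.Agent.H8.JS Pool.Agent.H76.ADV Filter

/-- `NEadv A`: the languages accepted in `NE` with `A n` advice values for the inputs of length `n`.
`Appr A h`: every language in `coNE` agrees, up to `h n` words of length `n` for all large `n`, with a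
language in `NEadv A`. `DH A`: the level `A` of the difference hierarchy over `NE`. `Tally`: the words
`0 ^ n`. -/
theorem result :
    -- 1. constantly many advice values
    (∀ (K : ℕ) (β : ℝ), 0 < K → β < 1 → List.TFAE [
      Appr (fun _ => K) (fun n => (2 : ℝ) ^ (β * n)),
      coNE ⊆ NEadv (fun _ => K),
      ∀ T ∈ DH (fun _ => K), (T)ᶜ ∈ DH (fun _ => K),
      ∀ c : ℕ, DH (fun n => 2 ^ (c * n)) ⊆ DH (fun _ => K)]) ∧
    (coNE ⊆ NEadv (fun _ => 1) ↔ NE = coNE) ∧
    ((∃ K, coNE ⊆ NEadv (fun _ => K)) → (∀ L ∈ NE, L ⊆ Tally → (L)ᶜ ∈ NE) → NE = coNE) ∧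
    -- 2. the zero-one law
    List.TFAE [
      ∃ (A h : ℕ → ℕ) (γ : ℝ), γ < 1 ∧
        (∀ᶠ n in atTop, ((A n * (2 * h n + 1) : ℕ) : ℝ) ≤ (2 : ℝ) ^ (γ * n)) ∧
          Appr A (fun n => (h n : ℝ)),
      ∃ γ : ℝ, γ < 1 ∧ DH (fun n => 2 ^ n) ⊆ DH (fun n => 2 ^ ⌊γ * n⌋₊),
      ∀ δ : ℝ, 0 < δ → coNE ⊆ NEadv (fun n => 2 ^ ⌊δ * n⌋₊),
      ∀ (δ : ℝ) (c : ℕ), 0 < δ → DH (fun n => 2 ^ (c * n)) ⊆ DH (fun n => 2 ^ ⌊δ * n⌋₊)] ∧
    -- 3. near the threshold; the general law
    coNE ⊆ NEadv (fun n => 2 ^ n + 1) ∧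
    ∀ A h : ℕ → ℕ, Appr A (fun n => (h n : ℝ)) → (∃ c, (∀ n, A n = c) ∨ ∀ n, h n = c) →
      coNE ⊆ NEadv (fun n => A n * (2 * h n + 1)) ∧
      (∀ ε : ℝ, 0 < ε → (∀ᶠ n in atTop, ((A n * (2 * h n + 1) : ℕ) : ℝ) ≤ (1 - ε) * 2 ^ n) →
        ∀ k, coNE ⊆ NEadv (fun n => 2 ^ (n - k))) ∧
      ((∀ᶠ n in atTop, A n * (2 * h n + 1) < 2 ^ n) →
        ∀ C, coNE ⊆ NEadv (fun n => max 1 (2 ^ n - C))) ∧
      ∀ (μ : ℕ → ℕ) (K : ℕ), 0 < K → Monotone μ → (∀ n, μ n ≤ n) →
        (∀ᶠ n in atTop, μ n < μ (n + K)) → lang {z | ∃ n, z = 2 ^ n + μ n} ∈ NE →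
        (∀ᶠ n in atTop, K * (A n * (2 * h n + 1)) ≤ 2 ^ μ n) →
          coNE ⊆ NEadv (fun n => A (μ n) * (2 * h (μ n) + 1)) :=
  ⟨l_tfae_const, l_one_value, fun ⟨K, h⟩ ht => l_tally K h ht,
    l_tfae_zero Pool.Agent.H68.ADV.pf_EG, l_census,
    fun A h hA hc => ⟨l_err A h hA hc,
      fun ε hε hV k => l_frac _ ε hε hV (l_err A h hA hc) k,
      fun hV C => l_one _ hV (l_err A h hA hc) C,
      fun μ K hK h1 h2 h3 h4 h5 => l_gen _ μ K hK h1 h2 h3 h4 h5 (l_err A h hA hc)⟩⟩

end Pool.Agent.Results.MP_64fb07_lc.AdviceLaw
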