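import Pool.Agent.H71.FX.All

/-!
# The spectrum problem for prefix vocabulary classes

Question of MP_64fb07_lc: is NE = coNE? Equivalently (Jones and Selman), are the complements of all
first-order spectra spectra (Asser)?
-/

set_option autoImplicit false

namespace Pool.Agent.Results.MP_64fb07_lc.PrefixClassification

open Pool.Agent.H69.Sp Pool.Agent.H8.JS Pool.Agent.H71.PF

/-- First-order sentences with equality in prenex form. `π` is a quantifier prefix (`true` is `∀`,
`false` is `∃`), `F` a set of function symbols of positive arity; all relation symbols of arity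
`1, …, r` are allowed; `Cl π F r` is the set of the spectra of these sentences. The class is tame
(`Tame π F r`) if
 * `π` has the form `∃*` or `∀∃*`, or
 * `F` has at most one symbol, which is unary, and `r ≤ 1` or `π` has the form `∃*∀∃*`, or
 * `F` is empty and `π` has the form `∃*∀*`.

1. All elements of `Cl π F r` are spectra (of relational sentences), and in NE. If the class is tame
   they are eventually periodic, and their complements are spectra.
2. If the class is not tame, then
 * for each spectrum `S` there are numbers `a, s > 0` such that `{a m ^ s : m ∈ S}` is in `Cl π F r`,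
   and the complement of this set is a spectrum if and only if the complement of `S` is;
 * some set in `Cl π F r` is NE-complete, in coNE if and only if NE = coNE, and its complement is a
   spectrum if and only if NE = coNE. -/
theorem result (π : List Bool) (F : ℕ → ℕ → Prop) (r : ℕ) (hF : ∀ i, ¬ F i 0) :
    (∀ S ∈ Cl π F r, IsSpectrum S ∧ lang S ∈ NE ∧
      (Tame π F r → Periodic S ∧ IsSpectrum (posCompl S))) ∧
    (¬ Tame π F r →
      (∀ S : Set ℕ, IsSpectrum S → ∃ a s : ℕ, 0 < a ∧ 0 < s ∧
        (fun m => a * m ^ s) '' S ∈ Cl π F r ∧
        (IsSpectrum (posCompl ((fun m => a * m ^ s) '' S)) ↔ IsSpectrum (posCompl S))) ∧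
      ∃ X ∈ Cl π F r, NEComplete X ∧ (lang X ∈ coNE ↔ NE = coNE) ∧
        (IsSpectrum (posCompl X) ↔ NE = coNE)) :=
  Pool.Agent.H71.FX.main π F r hF

end Pool.Agent.Results.MP_64fb07_lc.PrefixClassification
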