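import Pool.Agent.H8.MP.All

/-!
# NE = coNE: tree-width is the border for spectra over classes closed under subgraphs

The question of MP_64fb07_lc: is NE = coNE (the class `NE` is called NEXPTIME there)? Equivalently
(Jones, Selman): is the complement of the spectrum (the set of the sizes of the finite models) of a
first-order sentence always a spectrum? Here the models are graphs of a class `C` with further
relations.

(1) Let `C` be definable in counting monadic second-order logic, and let some square grid be a minor
of no graph in `C` (bounded tree-width). For every formula of this logic the set of the sizes of the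
graphs in `C` which have a colouring with this property is eventually periodic. For the logic of
arbitrary further binary relations, where the graph and the unary relations satisfy a formula `Ψ` of
counting monadic second-order logic, and everything together satisfies a formula `φ` of two-variable
logic with counting, all these sets and their complements are spectra, and the languages are in `E`
(deterministic time `2 ^ (c n)`).

(2) If `C` is definable in counting monadic second-order logic and closed under subgraphs, and every
square grid is a minor of a graph in `C` (unbounded tree-width), then the set of the sizes of the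
graphs in `C` which have a colouring with a certain first-order property is `NE`-complete, and it is
in `coNE` if and only if NE = coNE. There is one sequence of first-order sentences for all classes `C`;
for the classes which contain all square grids it is one sentence.
-/

set_option autoImplicit false

namespace Pool.Agent.Results.MP_64fb07_lc.TreeWidthBorder

open Pool.Agent.H69.Sp Pool.Agent.H69.VR Pool.Agent.H8.VR Pool.Agent.H8.JS Pool.Agent.H8.MC
open Pool.Agent.H8.DE (DE)
open Pool.Agent.H8.MP (EvPer)

theorem result :
    (∀ C : GClass, Definable C →
      (∃ r, ∀ (n : ℕ) (G : SimpleGraph (Fin n)), C n G → ¬ Minor (grid r) G) →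
      ∀ Ψ : MS, BinZero Ψ → EvPer (specF C Ψ) ∧ ∀ φ : C2,
        (IsSpectrum (specC C Ψ φ) ∧ IsSpectrum (posCompl (specC C Ψ φ))) ∧
          lang (specC C Ψ φ) ∈ DE) ∧
    ∃ Ψ : ℕ → MS, (∀ s, BinZero (Ψ s) ∧ FirstOrder (Ψ s)) ∧
      (∀ C : GClass, (∀ (r n : ℕ) (G : SimpleGraph (Fin n)), Nonempty (G ≃g grid r) → C n G) →
        NEComplete (specF C (Ψ 1)) ∧ (lang (specF C (Ψ 1)) ∈ coNE ↔ NE = coNE)) ∧
      ∀ C : GClass, Definable C → SubClosed C →
        (∀ r, ∃ (n : ℕ) (G : SimpleGraph (Fin n)), C n G ∧ Minor (grid r) G) →
        ∃ s, NEComplete (specF C (Ψ s)) ∧ (lang (specF C (Ψ s)) ∈ coNE ↔ NE = coNE) :=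
  Pool.Agent.H8.MP.v_9

end Pool.Agent.Results.MP_64fb07_lc.TreeWidthBorder
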