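import Pool.Agent.H54.WB.All

/-!
# Spectra of coloured graphs with a width bounded by a function of the number of the vertices

Question of MP_64fb07_lc: is NE = coNE? Equivalently (Jones and Selman), are the complements of all
first-order spectra spectra (Asser)?
-/

set_option autoImplicit false

namespace Pool.Agent.Results.MP_64fb07_lc.WidthBorders

open Pool.Agent.H69.Sp Pool.Agent.H69.VR Pool.Agent.H8.MC Pool.Agent.H8.JS Pool.Agent.H54.WB
open Pool.Agent.H8.MP (EvPer)

/-- `specF C Ψ` is the set of the numbers `n > 0` such that some graph in the class `C` with `n`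
vertices and unary relations (colours) satisfies the sentence `Ψ`. `MS` with `BinZero` is monadic
second-order logic with counting modulo fixed numbers (CMSO), with the adjacency relation and unary
relations. `p.upTo f` is the class of the graphs with `n` vertices, `n = 1, 2, …`, whose parameter `p`
is at most `f n`; the parameters are the tree-depth, the path-width, the tree-width and the
module-width (which is the clique-width up to a factor 2); `coverUpTo f` is this class for the vertex
cover number.
`ilog k n` is the logarithm to base 2, rounded down, iterated `k` times.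

For the four parameters the border between the tame and the hard functions `f` is given by the
iterated logarithms, for the vertex cover number it is `log n - O(1)`:

1. Let `p` be one of the four parameters, and let `f n` be at most `ilog k n` for each `k` and all
   large `n`. If the graph of `f` is a spectrum (`SpecFun f`), then `specF (p.upTo f) Ψ` and its
   complement are spectra, for all `Ψ` in CMSO.
2. For each `k` there is a first-order sentence `Ψ` such that, for each of the four parameters `p` and
   each `f` with `ilog k n ≤ f n` for large `n`, `specF (p.upTo f) Ψ` is a spectrum, and its complement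
   is a spectrum if and only if NE = coNE (`Hard Ψ (p.upTo f)`); the same for each class of graphs
   which contains all large graphs of tree-depth at most `ilog k n`.
3. If `f` is nondecreasing and `log n - f n` tends to infinity, then `specF (coverUpTo f) Ψ` is
   eventually periodic, for all `Ψ` in CMSO.
4. For each `c` there is a first-order sentence `Ψ` such that, for each `f` with `log n - c ≤ f n` for
   large `n`, `specF (coverUpTo f) Ψ` is a spectrum, and its complement is a spectrum if and only if
   NE = coNE; the same for each class of graphs which contains all large graphs with vertex cover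
   number at most `log n - c`. -/
theorem result :
    (∀ (p : Param) (f : ℕ → ℕ), (∀ k, ∃ n₀, ∀ n, n₀ ≤ n → f n ≤ ilog k n) → SpecFun f →
      ∀ Ψ : MS, BinZero Ψ →
        IsSpectrum (specF (p.upTo f) Ψ) ∧ IsSpectrum (posCompl (specF (p.upTo f) Ψ))) ∧
    (∀ k, ∃ Ψ : MS, (BinZero Ψ ∧ FirstOrder Ψ) ∧
      (∀ (p : Param) (f : ℕ → ℕ), (∃ n₀, ∀ n, n₀ ≤ n → ilog k n ≤ f n) → Hard Ψ (p.upTo f)) ∧
      ∀ C : GClass, (∃ n₀, ∀ n, n₀ ≤ n → ∀ G : SimpleGraph (Fin n),
        TreeDepthLE G (ilog k n) → C n G) → Hard Ψ C) ∧
    (∀ f : ℕ → ℕ, Monotone f → (∀ c, ∃ n₀, ∀ n, n₀ ≤ n → f n + c ≤ Nat.log 2 n) →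
      ∀ Ψ : MS, BinZero Ψ → EvPer (specF (coverUpTo f) Ψ)) ∧
    ∀ c, ∃ Ψ : MS, (BinZero Ψ ∧ FirstOrder Ψ) ∧
      (∀ f : ℕ → ℕ, (∃ n₀, ∀ n, n₀ ≤ n → Nat.log 2 n ≤ f n + c) → Hard Ψ (coverUpTo f)) ∧
      ∀ C : GClass, (∃ n₀, ∀ n, n₀ ≤ n → ∀ (G : SimpleGraph (Fin n)) (k : ℕ),
        k + c ≤ Nat.log 2 n → VertexCoverLE G k → C n G) → Hard Ψ C :=
  Pool.Agent.H54.WB.fin

end Pool.Agent.Results.MP_64fb07_lc.WidthBorders
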